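import Mathlib
import Pool.Agent.TH338.LG.Cls

/-!
# The integer sequences that push every measure of positive entropy to Lebesgue measure

`p` is a prime and `c` any sequence of integers. The images of every `T_p`-invariant measure of
positive entropy under `x ↦ c n * x` converge to Lebesgue measure if and only if, for each choice
of an integer `D ≥ 1` and integers `m 1, ..., m r`, only finitely many `n` satisfy
`D * c n = m 1 * p ^ V 1 + ... + m r * p ^ V r` with natural numbers `V i`.

The definitions used in the statement, from the imported files:

* `rep x` is the representative of `x` in `[0, 1)`;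
* `cell p n x` is the integer part of `p ^ n * rep x`, the index of the `p`-adic interval of
  level `n` containing `x`;
* `Hn p μ n` is the Shannon entropy of the partition into `p`-adic intervals of level `n`;
* `ent p μ` is the limit superior of `Hn p μ n / n`, which for an invariant measure is the
  Kolmogorov-Sinai entropy (the partition of level one is a generator);
* `PosEnt p μ`: for every Borel set `B` of positive measure whose preimage under `x ↦ p x` is
  `B`, the measure `μ` conditioned on `B` has positive entropy.
-/

set_option autoImplicit false
open MeasureTheory Filter Topology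
open Pool.Agent.TH338.LG

namespace Pool.Agent.Results.MP_96e181_an.DilationSequences

theorem result (p : ℕ) (hp : p.Prime) (c : ℕ → ℤ) :
    List.TFAE [
      ∀ (μ : Measure UnitAddCircle) [IsProbabilityMeasure μ],
        MeasurePreserving (fun x : UnitAddCircle => p • x) μ μ → PosEnt p μ →
        ∀ f : C(UnitAddCircle, ℂ),
          Tendsto (fun n : ℕ => ∫ z, f ((c n) • z) ∂μ) atTop (𝓝 (∫ z, f z)),
      ∀ (μ : Measure UnitAddCircle) [IsProbabilityMeasure μ],
        Ergodic (fun x : UnitAddCircle => p • x) μ → 0 < ent p μ →
        ∀ f : C(UnitAddCircle, ℂ),
          Tendsto (fun n : ℕ => ∫ z, f ((c n) • z) ∂μ) atTop (𝓝 (∫ z, f z)),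
      ∀ (D r : ℕ) (m : Fin r → ℤ), 0 < D →
        {n : ℕ | ∃ V : Fin r → ℕ, (D : ℤ) * c n = ∑ i, m i * (p : ℤ) ^ (V i)}.Finite] :=
  classification hp c

end Pool.Agent.Results.MP_96e181_an.DilationSequences
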