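import Mathlib
import Pool.Agent.TH461.FGK.Sup

/-!
# Small mass of an open set, Fourier coefficients, and visits of orbits to an open set

By Furstenberg's theorem a `×p, ×q` invariant probability measure `μ` on `R/Z` which does not charge
a nonempty open set `U` is carried by the finite set of points whose orbit avoids `U`.  Here are
quantitative forms for all invariant `μ` at once, and for all orbits, with every exponent
`κ > κ₀`, where `κ₀ = 0` for `p, q` coprime.
-/

set_option autoImplicit false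

open MeasureTheory Filter Topology

namespace Pool.Agent.Results.MP_96e181_an.FourierGrowth

/-- Let `p, q ≥ 2` be multiplicatively independent.  There is `0 ≤ κ₀ < 1`, with `κ₀ = 0` if `p`
and `q` are products of powers of two coprime numbers (for instance `p, q` coprime), such that for
every nonempty open `U` the set `K` of the points whose orbit under `×p, ×q` avoids `U` is killed by
some `d ≥ 1`, and for every `κ > κ₀`:
(1) for every `d` killing `K` there is `C` with `1 - Re μ^(d n) ≤ C (1 + log n) ^ κ μ(U)` for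
every probability measure `μ` invariant under `x ↦ p x` and `x ↦ q x` and every `n ≥ 1`;
(2) there is `C` with `μ {x | dist (x, K) ≥ e ^ (-t)} ≤ C t ^ κ μ(U)` for all such `μ` and `t ≥ 1`,
and for every `N ≥ 2` coprime to `p q` every orbit of `N`-torsion points which meets `U` has at
most `C (log N) ^ κ` times as many points as its intersection with `U`;
(3) for every irrational `x` there are infinitely many `n` such that
`p ^ i q ^ j x` is in `U` for at least `n ^ (2 - κ)` of the pairs `i, j ≤ n`. -/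
theorem result (p q : ℕ) (hp : 2 ≤ p) (hq : 2 ≤ q)
    (hpq : Irrational (Real.log (p : ℝ) / Real.log (q : ℝ))) :
    ∃ κ₀ : ℝ, 0 ≤ κ₀ ∧ κ₀ < 1 ∧
      ((∃ u v a b c d : ℕ, 2 ≤ u ∧ 2 ≤ v ∧ Nat.Coprime u v ∧ p = u ^ a * v ^ b ∧
        q = u ^ c * v ^ d ∧ a * d ≠ b * c) → κ₀ = 0) ∧
      ∀ U : Set UnitAddCircle, IsOpen U → U.Nonempty →
        (∃ d : ℕ, 1 ≤ d ∧
          ∀ x : UnitAddCircle, (∀ i j : ℕ, (p ^ i * q ^ j) • x ∉ U) → d • x = 0) ∧
        ∀ κ : ℝ, κ₀ < κ →
          (∀ d : ℕ, 1 ≤ d →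
            (∀ x : UnitAddCircle, (∀ i j : ℕ, (p ^ i * q ^ j) • x ∉ U) → d • x = 0) →
            ∃ C : ℝ, 0 < C ∧ ∀ μ : Measure UnitAddCircle, IsProbabilityMeasure μ →
              MeasurePreserving (fun x : UnitAddCircle => p • x) μ μ →
              MeasurePreserving (fun x : UnitAddCircle => q • x) μ μ →
              ∀ n : ℕ, 1 ≤ n →
                1 - (∫ x, fourier (d * n : ℤ) x ∂μ).re ≤
                  C * (1 + Real.log n) ^ κ * μ.real U) ∧
          (∃ C : ℝ, 0 < C ∧
            (∀ μ : Measure UnitAddCircle, IsProbabilityMeasure μ →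
              MeasurePreserving (fun x : UnitAddCircle => p • x) μ μ →
              MeasurePreserving (fun x : UnitAddCircle => q • x) μ μ →
              ∀ t : ℝ, 1 ≤ t →
                μ.real {x | ∀ k : UnitAddCircle, (∀ i j : ℕ, (p ^ i * q ^ j) • k ∉ U) →
                  Real.exp (-t) ≤ dist x k} ≤ C * t ^ κ * μ.real U) ∧
            ∀ N : ℕ, 2 ≤ N → Nat.Coprime N (p * q) → ∀ x : UnitAddCircle, N • x = 0 →
              (∃ i j : ℕ, (p ^ i * q ^ j) • x ∈ U) →
              ({y | ∃ i j : ℕ, y = (p ^ i * q ^ j) • x}.ncard : ℝ) ≤ C * Real.log N ^ κ *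
                ({y | (∃ i j : ℕ, y = (p ^ i * q ^ j) • x) ∧ y ∈ U}.ncard : ℝ)) ∧
          ∀ x : ℝ, Irrational x → ∃ᶠ n : ℕ in atTop, (n : ℝ) ^ (2 - κ) ≤
            ({u : ℕ × ℕ | u.1 ≤ n ∧ u.2 ≤ n ∧
              (p ^ u.1 * q ^ u.2) • (x : UnitAddCircle) ∈ U}.ncard : ℝ) := by
  obtain ⟨κ₀, h0, h1, h2, hGr⟩ := Pool.Agent.TH461.FGK.gr2_all hp hq hpq
  -- constants are absorbed in the exponent
  have absorb : ∀ c a b : ℝ, 0 < c → a < b → ∀ᶠ n : ℕ in atTop, (n : ℝ) ^ a ≤ c * (n : ℝ) ^ b := by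
    intro c a b hc hab
    have hlim : Tendsto (fun n : ℕ => (n : ℝ) ^ (b - a)) atTop atTop :=
      (tendsto_rpow_atTop (by linarith)).comp tendsto_natCast_atTop_atTop
    filter_upwards [hlim.eventually_ge_atTop (1 / c), eventually_ge_atTop 1] with n hn hn1
    have hn0 : (0 : ℝ) < n := by exact_mod_cast hn1
    rw [Real.rpow_sub hn0, div_le_div_iff₀ hc (Real.rpow_pos_of_pos hn0 _)] at hn
    linarith
  refine ⟨κ₀, h0, h1, fun h => h2 h, fun U hU hne =>
    ⟨Pool.Agent.TH654.FC.exists_killing hp hq hpq hU hne, fun κ hκ => ⟨?_, ?_, ?_⟩⟩⟩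
  · intro d hd hdU
    exact Pool.Agent.TH654.FC.open_growth hp (lt_of_le_of_lt h0 hκ)
      (Pool.Agent.TH461.FGK.nc_of_gr2 hp hq hpq (hGr κ hκ)) hU hd hdU
  · have hκ0 : 0 < κ := lt_of_le_of_lt h0 hκ
    obtain ⟨C1, hC1, e1⟩ := Pool.Agent.TH461.FGK.support2 hp hq hpq (by linarith : 2 - κ < 2)
      (hGr κ hκ) hU hne
    rw [sub_sub_cancel] at e1
    obtain ⟨C2, hC2, e2⟩ := Pool.Agent.H847R3.XpXq.rational hp hq hpq hκ0 hU hne hC1 e1
    refine ⟨C1 + C2, by positivity, ?_, ?_⟩
    · intro μ hμ hμp hμq t ht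
      refine (e1 μ hμ hμp hμq t ht).trans ?_
      have h3 : 0 ≤ μ.real U := measureReal_nonneg
      have ht0 : 0 ≤ t ^ κ := Real.rpow_nonneg (by linarith) _
      have h4 : C1 ≤ C1 + C2 := by linarith
      gcongr
    · intro N hN hco x hx hxU
      have hxK : x ∉ Pool.Agent.H847R3.XpXq.KU p q U := by
        intro h
        obtain ⟨i, j, hij⟩ := hxU
        exact h i j hij
      refine (e2 N hN hco x hx hxK).trans ?_
      have hl : 0 ≤ Real.log N ^ κ :=
        Real.rpow_nonneg (Real.log_nonneg (by exact_mod_cast (by omega : 1 ≤ N))) _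
      have h4 : C2 ≤ C1 + C2 := by linarith
      exact mul_le_mul_of_nonneg_right (mul_le_mul_of_nonneg_right h4 hl) (Nat.cast_nonneg _)
  · obtain ⟨κ1, e1, e2⟩ := exists_between hκ
    obtain ⟨c, hc, h3⟩ := Pool.Agent.TH461.FGK.io2 hp hq hpq (hGr κ1 e1) hU hne
    intro x hx
    refine ((h3 x hx).and_eventually (absorb c (2 - κ) (2 - κ1) hc (by linarith))).mono ?_
    rintro n ⟨h4, h5⟩
    exact h5.trans h4

end Pool.Agent.Results.MP_96e181_an.FourierGrowth
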