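import Pool.Agent.TH338.DD.SemLow

/-!
Let `p, q ≥ 2` be coprime. The points of the circle for which the averages over all the numbers
`n = p ^ a * q ^ b` below `N` do not dominate `κ` times Lebesgue measure form a set of Hausdorff
dimension exactly `1 - √(1 - κ)`.
-/

set_option autoImplicit false

open MeasureTheory
open scoped ENNReal NNReal

namespace Pool.Agent.Results.MP_96e181_an.SemigroupDimension

open Classical in
/-- The numbers `n = p ^ a * q ^ b` with `n < N`. -/
noncomputable def semigroup (p q : ℕ) (N : ℝ) : Finset ℕ :=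
  (Finset.range ⌈N⌉₊).filter fun n => (∃ a b : ℕ, n = p ^ a * q ^ b) ∧ (1 : ℝ) ≤ n

open Classical in
/-- The number of the `n = p ^ a * q ^ b < N` such that `n x` lies in the closed arc of centre `c`
and radius `r`. -/
noncomputable def visits (p q : ℕ) (N : ℝ) (x c : UnitAddCircle) (r : ℝ) : ℕ :=
  ((semigroup p q N).filter fun n => ‖n • x - c‖ ≤ r).card

/-- The averages over the semigroup dominate `κ` times Lebesgue measure at `x`: for every `ε > 0`
and every large `N`, each arc of length `2 r` is visited by the points `n x`, `n = p ^ a * q ^ b < N`,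
with frequency at least `2 r κ - ε`. -/
def AveragesDominate (p q : ℕ) (κ : ℝ) (x : UnitAddCircle) : Prop :=
  ∀ ε : ℝ, 0 < ε → ∃ N₀ : ℝ, ∀ N : ℝ, N₀ ≤ N →
    ∀ c : UnitAddCircle, ∀ r : ℝ, 0 ≤ r → r ≤ 1 / 2 →
      (2 * r * κ - ε) * (semigroup p q N).card ≤ (visits p q N x c r : ℝ)

/-- **The dimension of the points whose averages over the semigroup do not dominate `κ` times
Lebesgue measure.** Let `p, q ≥ 2` be coprime and `0 ≤ κ ≤ 1`. The set of the points `x` of the
circle for which the averages over the numbers `p ^ a * q ^ b < N` do not dominate `κ` times Lebesgue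
measure has Hausdorff dimension exactly `1 - √(1 - κ)`. -/
theorem result (p q : ℕ) (hp : 2 ≤ p) (hq : 2 ≤ q) (hpq : Nat.Coprime p q) (κ : ℝ) (hκ0 : 0 ≤ κ)
    (hκ1 : κ ≤ 1) :
    dimH {x : UnitAddCircle | ¬ AveragesDominate p q κ x} = ENNReal.ofReal (1 - √(1 - κ)) :=
  Pool.Agent.TH338.DD.semR_dim hp hq hpq hκ0 hκ1

end Pool.Agent.Results.MP_96e181_an.SemigroupDimension
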