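import Pool.Agent.TH463.UQ.Univ

/-!
A universal set of multipliers: almost all integers `c` (a set of density as close to one as desired)
move every atomless measure on the circle which is invariant under multiplication by some `p` to
Lebesgue measure, and every infinite set of such integers is rigid together with any `p`.
-/

set_option autoImplicit false

open MeasureTheory Filter Topology

namespace Pool.Agent.Results.MP_96e181_an.UniversalFrequencies

/-- **Every infinite set of multipliers from a set of density close to one is rigid.** For every
`η > 0` there is one set `C` of natural numbers, missing at most `η N` of the numbers below `N` for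
every `N`, such that for every `p ≥ 2` and every atomless probability measure `μ` on the circle which
is invariant under `x ↦ p x` (no assumption on the entropy, no ergodicity): the images of `μ` under
`x ↦ c x` converge weakly to Lebesgue measure as `c → ∞` in `C`; in particular, if `μ` is also
invariant under `x ↦ c x` for all `c` in some infinite subset `S` of `C`, however sparse, then `μ` is
Lebesgue measure. -/
theorem result (η : ℝ) (hη : 0 < η) : ∃ C : Set ℕ,
    (∀ N : ℕ, ((Nat.card {c : ℕ | c < N ∧ c ∉ C} : ℕ) : ℝ) ≤ η * N) ∧
    ∀ p : ℕ, 2 ≤ p → ∀ μ : Measure UnitAddCircle, IsProbabilityMeasure μ →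
      MeasurePreserving (fun x : UnitAddCircle => p • x) μ μ → (∀ x, μ {x} = 0) →
      (∀ f : C(UnitAddCircle, ℝ),
        Tendsto (fun c : ℕ => ∫ x, f (c • x) ∂μ) (atTop ⊓ 𝓟 C) (𝓝 (∫ x, f x))) ∧
      ∀ S : Set ℕ, S ⊆ C → S.Infinite →
        (∀ c ∈ S, MeasurePreserving (fun x : UnitAddCircle => c • x) μ μ) → μ = volume :=
  TH463.UQ.main hη

end Pool.Agent.Results.MP_96e181_an.UniversalFrequencies
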